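import Mathlib
import Pool.Agent.V11252.AL.Ess

/-!
If the essential spectrum of an `L`-asymptotic limit of a power bounded operator is `{t}` with
`t > 0`, then `t = 1`.
-/

open Set Filter Topology
open scoped InnerProductSpace ComplexOrder

namespace Pool.Agent.Results.MP_fdf6c3_an.EssSpectrumOne

/-- The space `ℓ^∞(ℕ)` of bounded complex sequences. -/
abbrev BddSeq : Type := lp (fun _ : ℕ => ℂ) ⊤

/-- Banach limits: positive shift-invariant linear functionals on `ℓ^∞(ℕ)` which are `1` on the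
constant sequence `1`. -/
def IsBanachLimit (L : BddSeq →ₗ[ℂ] ℂ) : Prop :=
  (∀ f : BddSeq, (∀ n, 0 ≤ f n) → 0 ≤ L f) ∧
    (∀ f g : BddSeq, (∀ n, g n = f (n + 1)) → L g = L f) ∧
    ∀ f : BddSeq, (∀ n, f n = 1) → L f = 1

section

variable {H : Type*} [NormedAddCommGroup H] [InnerProductSpace ℂ H]

/-- `T` is power bounded. -/
def PowerBounded (T : H →L[ℂ] H) : Prop := ∃ C : ℝ, ∀ n : ℕ, ‖T ^ n‖ ≤ C

/-- `A` is the `L`-asymptotic limit of `T`: `⟨A x, y⟩ = L (n ↦ ⟨T ^ n x, T ^ n y⟩)` for all `x`, `y`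
(Mathlib's inner product is linear in the second argument). -/
def IsAsymptoticLimit (L : BddSeq →ₗ[ℂ] ℂ) (T A : H →L[ℂ] H) : Prop :=
  ∀ x y : H, ∀ f : BddSeq, (∀ n, f n = ⟪(T ^ n) y, (T ^ n) x⟫_ℂ) → ⟪y, A x⟫_ℂ = L f

/-- The essential spectrum of `A`, i.e. the spectrum of the image of `A` in the Calkin algebra: all
`z` such that `z - A` has no two-sided inverse modulo compact operators. -/
def essSpectrum (A : H →L[ℂ] H) : Set ℂ :=
  {z | ¬ ∃ B : H →L[ℂ] H, IsCompactOperator (B * (z • 1 - A) - 1 : H →L[ℂ] H) ∧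
    IsCompactOperator ((z • 1 - A) * B - 1 : H →L[ℂ] H)}

lemma starProj_sum {D : Submodule ℂ H} [FiniteDimensional ℂ D] (u : H) :
    ‖D.starProjection u‖ ^ 2 = ∑ i, ‖⟪((stdOrthonormalBasis ℂ D) i : H), u⟫_ℂ‖ ^ 2 := by
  set f := stdOrthonormalBasis ℂ D
  have h4 := f.sum_sq_norm_inner_right (D.orthogonalProjectionOnto u)
  have h5 : ‖D.starProjection u‖ = ‖D.orthogonalProjectionOnto u‖ := rfl
  rw [h5, ← h4]
  refine Finset.sum_congr rfl fun i _ => ?_
  rw [Submodule.coe_inner]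
  have h6 := Submodule.inner_starProjection_left_eq_right D (f i : H) u
  have h7 : D.starProjection (f i : H) = f i := Submodule.starProjection_eq_self_iff.2 (f i).2
  rw [h7] at h6
  have h8 : (D.orthogonalProjectionOnto u : H) = D.starProjection u := rfl
  rw [h8, h6]

lemma starProj_min {D : Submodule ℂ H} [FiniteDimensional ℂ D] (u y : H) (hy : y ∈ D) :
    ‖u - D.starProjection u‖ ^ 2 ≤ ‖u - y‖ ^ 2 := by
  have h := norm_add_sq_eq_norm_sq_add_norm_sq_of_inner_eq_zero (D.starProjection u - y)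
    (u - D.starProjection u)
    (Submodule.inner_right_of_mem_orthogonal
      (D.sub_mem (Submodule.starProjection_apply_mem D u) hy)
      (Submodule.sub_starProjection_mem_orthogonal u))
  rw [sub_add_sub_cancel'] at h
  rw [sq, sq, h]
  nlinarith [norm_nonneg (D.starProjection u - y)]

/-- Quadratic form bound for a compact operator. -/
lemma form_bound {K : H →L[ℂ] H} (hK : IsCompactOperator K) {ε : ℝ} (hε : 0 < ε) :
    ∃ (d : ℕ) (f : Fin d → H) (c : ℝ), 0 ≤ c ∧ (∀ i, ‖f i‖ = 1) ∧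
      ∀ z, ‖⟪z, K z⟫_ℂ‖ ≤ 2 * ε * ‖z‖ ^ 2 + c * ∑ i, ‖⟪f i, z⟫_ℂ‖ ^ 2 := by
  have h1 : IsCompact (closure (K '' Metric.closedBall 0 1)) :=
    hK.isCompact_closure_image_closedBall (f := (K : H →ₗ[ℂ] H)) 1
  have h2 : TotallyBounded (K '' Metric.closedBall 0 1) :=
    h1.totallyBounded.subset subset_closure
  obtain ⟨t, -, ht2, ht3⟩ := Metric.finite_approx_of_totallyBounded h2 ε hε
  set D : Submodule ℂ H := Submodule.span ℂ t with hD
  have : FiniteDimensional ℂ D := FiniteDimensional.span_of_finite ℂ ht2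
  have hE : ∀ z : H, ‖K z - D.starProjection (K z)‖ ≤ ε * ‖z‖ := by
    intro z
    rcases eq_or_ne z 0 with rfl | hz
    · simp
    have hz' : 0 < ‖z‖ := norm_pos_iff.2 hz
    obtain ⟨w, hw⟩ : ∃ w : H, w = ((‖z‖⁻¹ : ℝ) : ℂ) • z := ⟨_, rfl⟩
    have hw1 : ‖w‖ = 1 := by
      rw [hw, norm_smul, Complex.norm_real, Real.norm_of_nonneg (by positivity),
        inv_mul_cancel₀ hz'.ne']
    have hzw : z = ((‖z‖ : ℝ) : ℂ) • w := by
      rw [hw, smul_smul, ← Complex.ofReal_mul, mul_inv_cancel₀ hz'.ne', Complex.ofReal_one,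
        one_smul]
    have h4 := ht3 ⟨w, by simp [hw1], rfl⟩
    simp only [mem_iUnion, Metric.mem_ball, exists_prop] at h4
    obtain ⟨y, hy, hyz⟩ := h4
    have h5 : ‖K w - D.starProjection (K w)‖ ≤ ε := by
      have h6 := starProj_min (D := D) (K w) y (Submodule.subset_span hy)
      have h7 : ‖K w - D.starProjection (K w)‖ ≤ ‖K w - y‖ :=
        (sq_le_sq₀ (norm_nonneg _) (norm_nonneg _)).1 h6
      rw [← dist_eq_norm (K w) y] at h7
      exact h7.trans hyz.le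
    have h8 : K z = ((‖z‖ : ℝ) : ℂ) • K w := by rw [← map_smul, ← hzw]
    rw [h8, map_smul, ← smul_sub, norm_smul, Complex.norm_real,
      Real.norm_of_nonneg (norm_nonneg _)]
    rw [mul_comm]
    gcongr
  refine ⟨Module.finrank ℂ D, fun i => (stdOrthonormalBasis ℂ D i : H), ‖K‖ ^ 2 / (4 * ε),
    by positivity, fun i => (stdOrthonormalBasis ℂ D).orthonormal.1 i, fun z => ?_⟩
  rw [← starProj_sum]
  have e1 : ⟪z, K z⟫_ℂ = ⟪z, K z - D.starProjection (K z)⟫_ℂ + ⟪D.starProjection z, K z⟫_ℂ := by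
    rw [Submodule.inner_starProjection_left_eq_right D z (K z), ← inner_add_right, sub_add_cancel]
  rw [e1]
  refine (norm_add_le _ _).trans ?_
  have e2 : ‖⟪z, K z - D.starProjection (K z)⟫_ℂ‖ ≤ ε * ‖z‖ ^ 2 := by
    refine (norm_inner_le_norm _ _).trans ?_
    have := hE z
    calc ‖z‖ * ‖K z - D.starProjection (K z)‖ ≤ ‖z‖ * (ε * ‖z‖) := by gcongr
      _ = ε * ‖z‖ ^ 2 := by ring
  have e3 : ‖⟪D.starProjection z, K z⟫_ℂ‖ ≤
      ε * ‖z‖ ^ 2 + ‖K‖ ^ 2 / (4 * ε) * ‖D.starProjection z‖ ^ 2 := by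
    refine (norm_inner_le_norm _ _).trans ?_
    have h5 := K.le_opNorm z
    set p := ‖D.starProjection z‖
    have hp : 0 ≤ p := norm_nonneg _
    calc p * ‖K z‖ ≤ p * (‖K‖ * ‖z‖) := by gcongr
      _ ≤ ε * ‖z‖ ^ 2 + ‖K‖ ^ 2 / (4 * ε) * p ^ 2 := by
        have h6 : ε * ‖z‖ ^ 2 + ‖K‖ ^ 2 / (4 * ε) * p ^ 2 - p * (‖K‖ * ‖z‖) =
            (2 * ε * ‖z‖ - ‖K‖ * p) ^ 2 / (4 * ε) := by
          field_simp; ring
        have h7 : 0 ≤ (2 * ε * ‖z‖ - ‖K‖ * p) ^ 2 / (4 * ε) := by positivity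
        linarith
  linarith

lemma exists_orthonormal (hH : ¬ FiniteDimensional ℂ H) (N : ℕ) :
    ∃ x : Fin N → H, Orthonormal ℂ x := by
  obtain ⟨v, hv⟩ : ∃ v : Fin N → H, LinearIndependent ℂ v := by
    have h1 : (N : Cardinal) ≤ Module.rank ℂ H := by
      have : Cardinal.aleph0 ≤ Module.rank ℂ H := by
        rw [← not_lt]; intro h; exact hH (Module.rank_lt_aleph0_iff.1 h)
      exact (Cardinal.natCast_lt_aleph0 (n := N)).le.trans this
    obtain ⟨s, hs1, hs2⟩ := le_rank_iff_exists_linearIndependent_finset.1 h1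
    have e : Fin N ≃ s := (Fintype.equivFinOfCardEq (by simpa using hs1)).symm
    exact ⟨fun k => (e k : H), hs2.comp e e.injective⟩
  set U : Submodule ℂ H := Submodule.span ℂ (Set.range v)
  have : FiniteDimensional ℂ U := FiniteDimensional.span_of_finite ℂ (Set.finite_range v)
  have hfr : Module.finrank ℂ U = N := by
    rw [finrank_span_eq_card hv, Fintype.card_fin]
  set g := (stdOrthonormalBasis ℂ U).reindex (finCongr hfr) with hg
  refine ⟨fun k => (g k : H), ?_⟩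
  have h3 := g.orthonormal
  rw [orthonormal_iff_ite] at h3 ⊢
  intro i j
  exact h3 i j

end

/-- Let `A` be the `L`-asymptotic limit of a power bounded operator `T` on a complex Hilbert space,
`L` a Banach limit. If the essential spectrum of `A` is `{t}` with `t > 0`, then `t = 1`. -/
theorem result {H : Type*} [NormedAddCommGroup H] [InnerProductSpace ℂ H] [CompleteSpace H]
    (L : BddSeq →ₗ[ℂ] ℂ) (hL : IsBanachLimit L) (T A : H →L[ℂ] H) (hT : PowerBounded T)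
    (hA : IsAsymptoticLimit L T A) (t : ℝ) (ht : 0 < t) (hσ : essSpectrum A = {(t : ℂ)}) :
    t = 1 := by
  -- the space is infinite-dimensional
  have hH : ¬ FiniteDimensional ℂ H := by
    intro hfd
    have : ProperSpace H := FiniteDimensional.proper ℂ H
    have h1 : (t : ℂ) ∈ essSpectrum A := by rw [hσ]; rfl
    apply h1
    exact ⟨0, isCompactOperator_of_locallyCompactSpace_rng _,
      isCompactOperator_of_locallyCompactSpace_rng _⟩
  obtain ⟨C, hC⟩ := hT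
  have hC0 : 0 ≤ C := (norm_nonneg _).trans (hC 0)
  have hb : ∀ (n : ℕ) (z : H), ‖(T ^ n) z‖ ≤ C * ‖z‖ := fun n z =>
    ((T ^ n).le_opNorm z).trans (by gcongr; exact hC n)
  have hmem : ∀ (S : H →L[ℂ] H) (x y : H),
      Memℓp (fun n : ℕ => ⟪(T ^ n) y, S ((T ^ n) x)⟫_ℂ) ⊤ := by
    intro S x y
    refine memℓp_infty ⟨(C * ‖y‖) * (‖S‖ * (C * ‖x‖)), ?_⟩
    rintro _ ⟨n, rfl⟩
    have h1 : ‖S ((T ^ n) x)‖ ≤ ‖S‖ * (C * ‖x‖) :=
      (S.le_opNorm _).trans (by gcongr; exact hb n x)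
    exact (norm_inner_le_norm _ _).trans
      (mul_le_mul (hb n y) h1 (norm_nonneg _) ((norm_nonneg _).trans (hb n y)))
  set sq : (H →L[ℂ] H) → H → H → BddSeq := fun S x y =>
    ⟨fun n => ⟪(T ^ n) y, S ((T ^ n) x)⟫_ℂ, hmem S x y⟩ with hsqd
  have hsq : ∀ S x y n, sq S x y n = ⟪(T ^ n) y, S ((T ^ n) x)⟫_ℂ := fun _ _ _ _ => rfl
  have hAi : ∀ x y, ⟪y, A x⟫_ℂ = L (sq 1 x y) := fun x y => hA x y _ (fun n => rfl)
  have hAT : ∀ x y, ⟪T y, A (T x)⟫_ℂ = ⟪y, A x⟫_ℂ := by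
    intro x y
    rw [hAi, hAi]
    exact hL.2.1 (sq 1 x y) (sq 1 (T x) (T y)) (fun n => by rw [hsq, hsq, pow_succ]; rfl)
  have hATn : ∀ (n : ℕ) x y, ⟪(T ^ n) y, A ((T ^ n) x)⟫_ℂ = ⟪y, A x⟫_ℂ := by
    intro n
    induction n with
    | zero => intro x y; simp
    | succ n ih =>
      intro x y
      have e : ∀ z, (T ^ (n + 1)) z = T ((T ^ n) z) := fun z => by rw [pow_succ']; rfl
      rw [e, e, hAT, ih]
  have hself : ∀ z : H, ⟪z, z⟫_ℂ = ((‖z‖ ^ 2 : ℝ) : ℂ) := by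
    intro z
    rw [inner_self_eq_norm_sq_to_K]; norm_cast
  have hpos : ∀ x, 0 ≤ ⟪x, A x⟫_ℂ := by
    intro x
    rw [hAi]
    refine hL.1 _ fun n => ?_
    rw [hsq]
    change 0 ≤ ⟪(T ^ n) x, (T ^ n) x⟫_ℂ
    rw [hself]
    exact Complex.zero_le_real.2 (by positivity)
  have hAsa : IsSelfAdjoint A := by
    have hA0 : 0 ≤ A := by
      rw [ContinuousLinearMap.nonneg_iff_isPositive, ContinuousLinearMap.isPositive_iff_complex]
      intro x
      have h := Complex.nonneg_iff.1 (hpos x)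
      have hcj : ⟪A x, x⟫_ℂ = ⟪x, A x⟫_ℂ := by
        rw [← inner_conj_symm]
        exact Complex.conj_eq_iff_im.2 h.2.symm
      rw [hcj]
      refine ⟨?_, h.1⟩
      apply Complex.ext
      · simp
      · simpa using h.2
    exact IsSelfAdjoint.of_nonneg hA0
  set K : H →L[ℂ] H := A - (t : ℂ) • 1 with hK
  have hKsa : IsSelfAdjoint K := by
    refine hAsa.sub ?_
    rw [isSelfAdjoint_iff, star_smul, star_one]
    congr 1
    exact Complex.conj_ofReal t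
  have hKc : IsCompactOperator K := by
    refine Pool.Agent.V11252.AL.compact_of_ess hKsa fun l hl => ?_
    have h1 : ((t + l : ℝ) : ℂ) ∉ essSpectrum A := by
      rw [hσ, mem_singleton_iff]
      intro h
      have : t + l = t := by exact_mod_cast h
      exact hl (by linarith)
    simp only [essSpectrum] at h1
    rw [Set.mem_ofPred_eq, not_not] at h1
    obtain ⟨B, hB, -⟩ := h1
    refine ⟨-B, ?_⟩
    have e : (-B * (K - (l : ℂ) • 1) - 1 : H →L[ℂ] H) =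
        B * (((t + l : ℝ) : ℂ) • 1 - A) - 1 := by
      rw [hK]
      push_cast
      rw [neg_mul, ← mul_neg]
      congr 2
      rw [add_smul]; abel
    rw [e]; exact hB
  have hAK : ∀ z, ⟪z, A z⟫_ℂ = t * ((‖z‖ ^ 2 : ℝ) : ℂ) + ⟪z, K z⟫_ℂ := by
    intro z
    have : A z = (t : ℂ) • z + K z := by rw [hK]; simp
    rw [this, inner_add_right, inner_smul_right, hself]
  have hKreal : ∀ z, ⟪z, K z⟫_ℂ = (((⟪z, K z⟫_ℂ).re : ℝ) : ℂ) := by
    intro z
    have h1 : (starRingEnd ℂ) ⟪z, K z⟫_ℂ = ⟪z, K z⟫_ℂ := by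
      rw [inner_conj_symm]
      have h2 := ContinuousLinearMap.adjoint_inner_left K z z
      rw [← ContinuousLinearMap.star_eq_adjoint, hKsa.star_eq] at h2
      exact h2
    exact (Complex.conj_eq_iff_real.1 h1).elim fun r hr => by rw [hr]; simp
  by_contra hne
  -- the constants
  have hne' : 0 < |1 - t| := abs_pos.2 (sub_ne_zero.2 (Ne.symm hne))
  obtain ⟨ε, hε, hε1, hε2⟩ : ∃ ε : ℝ, 0 < ε ∧ 2 * ε ≤ |1 - t| / 2 ∧ 2 * ε ≤ t / 2 :=
    ⟨min (|1 - t| / 4) (t / 4), lt_min (by positivity) (by positivity),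
      by linarith [min_le_left (|1 - t| / 4) (t / 4)],
      by linarith [min_le_right (|1 - t| / 4) (t / 4)]⟩
  obtain ⟨d, f, c, hc, hf1, hfb⟩ := form_bound hKc hε
  -- choose the number of vectors
  obtain ⟨N, hN⟩ : ∃ N : ℕ, |1 - t| / 2 * (t / 2 * N - c * d) > c * (d * C ^ 2) := by
    obtain ⟨N, hN⟩ := exists_nat_gt ((c * (d * C ^ 2) / (|1 - t| / 2) + c * d) / (t / 2))
    refine ⟨N, ?_⟩
    rw [div_lt_iff₀ (by positivity)] at hN
    have h1 : c * (d * C ^ 2) / (|1 - t| / 2) < t / 2 * N - c * d := by linarith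
    rw [div_lt_iff₀ (by positivity)] at h1
    linarith
  obtain ⟨e, he⟩ := exists_orthonormal hH N
  -- pointwise bound along the orbits
  have hfin : ∀ n : ℕ, ∑ k, ∑ i, ‖⟪f i, (T ^ n) (e k)⟫_ℂ‖ ^ 2 ≤ d * C ^ 2 := by
    intro n
    rw [Finset.sum_comm]
    have h1 : ∀ i, ∑ k, ‖⟪f i, (T ^ n) (e k)⟫_ℂ‖ ^ 2 ≤ C ^ 2 := by
      intro i
      have h2 := he.sum_inner_products_le (ContinuousLinearMap.adjoint (T ^ n) (f i))
        (s := Finset.univ)
      have h3 : ‖ContinuousLinearMap.adjoint (T ^ n) (f i)‖ ≤ C := by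
        refine (ContinuousLinearMap.le_opNorm _ _).trans ?_
        rw [hf1, mul_one, LinearIsometryEquiv.norm_map]
        exact hC n
      calc ∑ k, ‖⟪f i, (T ^ n) (e k)⟫_ℂ‖ ^ 2 =
          ∑ k, ‖⟪e k, ContinuousLinearMap.adjoint (T ^ n) (f i)⟫_ℂ‖ ^ 2 := by
            refine Finset.sum_congr rfl fun k _ => ?_
            rw [ContinuousLinearMap.adjoint_inner_right, norm_inner_symm]
        _ ≤ _ := h2
        _ ≤ C ^ 2 := by gcongr
    calc ∑ i, ∑ k, ‖⟪f i, (T ^ n) (e k)⟫_ℂ‖ ^ 2 ≤ ∑ _i : Fin d, C ^ 2 :=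
          Finset.sum_le_sum fun i _ => h1 i
      _ = d * C ^ 2 := by simp
  have horb : ∀ n : ℕ, |∑ k, (⟪(T ^ n) (e k), K ((T ^ n) (e k))⟫_ℂ).re| ≤
      2 * ε * ∑ k, ‖(T ^ n) (e k)‖ ^ 2 + c * (d * C ^ 2) := by
    intro n
    calc |∑ k, (⟪(T ^ n) (e k), K ((T ^ n) (e k))⟫_ℂ).re|
        ≤ ∑ k, |(⟪(T ^ n) (e k), K ((T ^ n) (e k))⟫_ℂ).re| := Finset.abs_sum_le_sum_abs _ _
      _ ≤ ∑ k, (2 * ε * ‖(T ^ n) (e k)‖ ^ 2 + c * ∑ i, ‖⟪f i, (T ^ n) (e k)⟫_ℂ‖ ^ 2) :=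
          Finset.sum_le_sum fun k _ => (Complex.abs_re_le_norm _).trans (hfb _)
      _ = 2 * ε * ∑ k, ‖(T ^ n) (e k)‖ ^ 2 + c * ∑ k, ∑ i, ‖⟪f i, (T ^ n) (e k)⟫_ℂ‖ ^ 2 := by
          rw [Finset.sum_add_distrib, Finset.mul_sum, Finset.mul_sum]
      _ ≤ _ := by gcongr; exact hfin n
  -- the sum of the quadratic form of `A`
  set α : ℝ := ∑ k, (⟪e k, A (e k)⟫_ℂ).re with hα
  have hAre : ∀ x, ⟪x, A x⟫_ℂ = (((⟪x, A x⟫_ℂ).re : ℝ) : ℂ) := by
    intro x
    have h := Complex.nonneg_iff.1 (hpos x)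
    apply Complex.ext
    · simp
    · simp [← h.2]
  have hαc : ∑ k, ⟪e k, A (e k)⟫_ℂ = (α : ℂ) := by
    rw [hα, Complex.ofReal_sum]
    exact Finset.sum_congr rfl fun k _ => hAre _
  have hα0 : t / 2 * N - c * d ≤ α := by
    have h1 : α = ∑ k, (t * ‖e k‖ ^ 2 + (⟪e k, K (e k)⟫_ℂ).re) := by
      rw [hα]
      refine Finset.sum_congr rfl fun k _ => ?_
      rw [hAK, Complex.add_re, ← Complex.ofReal_mul, Complex.ofReal_re]
    have h2 : ∀ k, -(2 * ε * ‖e k‖ ^ 2 + c * ∑ i, ‖⟪f i, e k⟫_ℂ‖ ^ 2) ≤ (⟪e k, K (e k)⟫_ℂ).re := by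
      intro k
      have := (Complex.abs_re_le_norm _).trans (hfb (e k))
      exact (abs_le.1 this).1
    have h3 : ∑ k, ∑ i, ‖⟪f i, e k⟫_ℂ‖ ^ 2 ≤ d := by
      rw [Finset.sum_comm]
      have h4 : ∀ i, ∑ k, ‖⟪f i, e k⟫_ℂ‖ ^ 2 ≤ 1 := by
        intro i
        have h5 := he.sum_inner_products_le (f i) (s := Finset.univ)
        rw [hf1, one_pow] at h5
        refine le_trans (le_of_eq ?_) h5
        exact Finset.sum_congr rfl fun k _ => by rw [norm_inner_symm]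
      calc ∑ i, ∑ k, ‖⟪f i, e k⟫_ℂ‖ ^ 2 ≤ ∑ _i : Fin d, (1 : ℝ) :=
            Finset.sum_le_sum fun i _ => h4 i
        _ = d := by simp
    have h6 : ∑ k, (t * ‖e k‖ ^ 2 - (2 * ε * ‖e k‖ ^ 2 + c * ∑ i, ‖⟪f i, e k⟫_ℂ‖ ^ 2)) ≤ α := by
      rw [h1]
      exact Finset.sum_le_sum fun k _ => by linarith [h2 k]
    have h7 : ∀ k, ‖e k‖ ^ 2 = 1 := fun k => by rw [he.1 k, one_pow]
    simp only [h7, mul_one] at h6
    rw [Finset.sum_sub_distrib, Finset.sum_add_distrib, ← Finset.mul_sum] at h6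
    simp only [Finset.sum_const, Finset.card_univ, Fintype.card_fin, nsmul_eq_mul] at h6
    have h8 : c * ∑ k, ∑ i, ‖⟪f i, e k⟫_ℂ‖ ^ 2 ≤ c * d := by gcongr
    rw [Finset.mul_sum] at h8
    have h9 : (N : ℝ) * (2 * ε) ≤ N * (t / 2) := by gcongr
    nlinarith
  -- apply the Banach limit
  have hone : Memℓp (fun _ : ℕ => (1 : ℂ)) ⊤ := by
    refine memℓp_infty ⟨1, ?_⟩
    rintro _ ⟨n, rfl⟩
    simp
  set u : BddSeq := ⟨fun _ => 1, hone⟩ with hu
  have hLu : L u = 1 := hL.2.2 u fun n => rfl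
  set F : BddSeq := ∑ k, sq K (e k) (e k) with hF
  set G : BddSeq := ∑ k, sq 1 (e k) (e k) with hG
  have hFn : ∀ n, F n = ((∑ k, (⟪(T ^ n) (e k), K ((T ^ n) (e k))⟫_ℂ).re : ℝ) : ℂ) := by
    intro n
    rw [hF, lp.coeFn_sum, Finset.sum_apply, Complex.ofReal_sum]
    exact Finset.sum_congr rfl fun k _ => hKreal _
  have hGn : ∀ n, G n = ((∑ k, ‖(T ^ n) (e k)‖ ^ 2 : ℝ) : ℂ) := by
    intro n
    rw [hG, lp.coeFn_sum, Finset.sum_apply, Complex.ofReal_sum]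
    exact Finset.sum_congr rfl fun k _ => hself _
  have hLG : L G = (α : ℂ) := by
    rw [hG, map_sum, ← hαc]
    exact Finset.sum_congr rfl fun k _ => (hAi _ _).symm
  have hLsqA : ∀ x, L (sq A x x) = ⟪x, A x⟫_ℂ := by
    intro x
    have : sq A x x = ⟪x, A x⟫_ℂ • u := by
      ext n
      rw [hsq, hATn, lp.coeFn_smul, Pi.smul_apply]
      change _ = ⟪x, A x⟫_ℂ • (1 : ℂ)
      rw [smul_eq_mul, mul_one]
    rw [this, map_smul, hLu, smul_eq_mul, mul_one]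
  have hLF : L F = (((1 - t) * α : ℝ) : ℂ) := by
    have h1 : ∀ x, sq A x x = (t : ℂ) • sq 1 x x + sq K x x := by
      intro x
      ext n
      rw [lp.coeFn_add, Pi.add_apply, lp.coeFn_smul, Pi.smul_apply, hsq, hsq, hsq, hAK, ← hself]
      rfl
    have h2 : ∀ x, L (sq K x x) = (1 - t) * ⟪x, A x⟫_ℂ := by
      intro x
      have h3 := hLsqA x
      rw [h1, map_add, map_smul, ← hAi, smul_eq_mul] at h3
      linear_combination h3
    rw [hF, map_sum]
    simp only [h2]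
    rw [← Finset.mul_sum, hαc]
    push_cast; ring
  have hmain : ∀ s : ℝ, (s = 1 ∨ s = -1) → s * ((1 - t) * α) ≤ 2 * ε * α + c * (d * C ^ 2) := by
    intro s hs
    set W : BddSeq := ((2 * ε : ℝ) : ℂ) • G + ((c * (d * C ^ 2) : ℝ) : ℂ) • u - (s : ℂ) • F with hW
    have hWn : ∀ n, W n = ((2 * ε * ∑ k, ‖(T ^ n) (e k)‖ ^ 2 + c * (d * C ^ 2) -
        s * ∑ k, (⟪(T ^ n) (e k), K ((T ^ n) (e k))⟫_ℂ).re : ℝ) : ℂ) := by
      intro n
      rw [hW, lp.coeFn_sub, Pi.sub_apply, lp.coeFn_add, Pi.add_apply, lp.coeFn_smul, lp.coeFn_smul,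
        lp.coeFn_smul, Pi.smul_apply, Pi.smul_apply, Pi.smul_apply, hFn, hGn]
      have : (u : ℕ → ℂ) n = 1 := rfl
      rw [this]
      simp only [smul_eq_mul, mul_one]
      push_cast; ring
    have h1 : 0 ≤ L W := by
      refine hL.1 W fun n => ?_
      rw [hWn]
      refine Complex.zero_le_real.2 ?_
      have h2 := horb n
      rw [abs_le] at h2
      rcases hs with rfl | rfl <;> linarith [h2.1, h2.2]
    have h2 : L W = ((2 * ε * α + c * (d * C ^ 2) - s * ((1 - t) * α) : ℝ) : ℂ) := by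
      rw [hW, map_sub, map_add, map_smul, map_smul, map_smul, hLG, hLF, hLu]
      simp only [smul_eq_mul, mul_one]
      push_cast; ring
    rw [h2] at h1
    have := Complex.zero_le_real.1 h1
    linarith
  have h1 := hmain 1 (Or.inl rfl)
  have h2 := hmain (-1) (Or.inr rfl)
  have hαnn : 0 ≤ α := Finset.sum_nonneg fun k _ => (Complex.nonneg_iff.1 (hpos _)).1
  have h3 : |1 - t| * α ≤ 2 * ε * α + c * (d * C ^ 2) := by
    rcases abs_choice (1 - t) with h | h <;> rw [h] <;> linarith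
  have h4 : |1 - t| / 2 * α ≤ c * (d * C ^ 2) := by nlinarith
  have h5 : |1 - t| / 2 * (t / 2 * N - c * d) ≤ |1 - t| / 2 * α := by gcongr
  linarith

end Pool.Agent.Results.MP_fdf6c3_an.EssSpectrumOne
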